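import Pool.Agent.H773.IE.SM

set_option autoImplicit false

open MeasureTheory Set Filter Topology
open scoped ENNReal

namespace Pool.Agent.H200.IE

open Pool.Agent.H773.IE

section basic

variable {G H : Type} [Group G] [NormedAddCommGroup H] [InnerProductSpace ℝ H]
  {U : G →* (H →L[ℝ] H)}

theorem U_inv (U : G →* (H →L[ℝ] H)) (g : G) (v : H) : U g (U g⁻¹ v) = v := by
  have h : U g * U g⁻¹ = 1 := by rw [← map_mul, mul_inv_cancel, map_one]
  have h2 : (U g * U g⁻¹) v = v := by rw [h]; rfl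
  exact h2

theorem inner_pres (hU : ∀ g v, ‖U g v‖ = ‖v‖) (g : G) (v w : H) :
    inner ℝ (U g v) (U g w) = inner ℝ v w := by
  let f : H →ₗᵢ[ℝ] H := ⟨(U g).toLinearMap, hU g⟩
  exact f.inner_map_map v w

theorem inner_adj (hU : ∀ g v, ‖U g v‖ = ‖v‖) (g : G) (v w : H) :
    inner ℝ (U g v) w = inner ℝ v (U g⁻¹ w) := by
  rw [← inner_pres hU g v (U g⁻¹ w), U_inv]

/-- the choice of almost invariant vectors -/
theorem exists_psi {n : ℕ} {e : H} {δ : ℝ} :
    ∃ ψ : (Fin n → G) → H, (∀ b, ‖ψ b - e‖ ≤ 1 / 8) ∧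
      ∀ b ∈ SS U n e δ, ∀ i, ‖U (b i) (ψ b) - ψ b‖ ≤ δ := by
  classical
  have h : ∀ b : Fin n → G, ∃ x : H, ‖x - e‖ ≤ 1 / 8 ∧
      (b ∈ SS U n e δ → ∀ i, ‖U (b i) x - x‖ ≤ δ) := by
    intro b
    by_cases hb : b ∈ SS U n e δ
    · obtain ⟨x, h1, h2⟩ := hb
      exact ⟨x, h1, fun _ => h2⟩
    · exact ⟨e, by simp, fun h => absurd h hb⟩
  choose ψ h1 h2 using h
  exact ⟨ψ, h1, h2⟩

theorem norm_le_of_ball {x e : H} (h : ‖x - e‖ ≤ 1 / 8) : ‖x‖ ≤ ‖e‖ + 1 / 8 := by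
  have := norm_add_le (x - e) e
  rw [sub_add_cancel] at this
  linarith

end basic

theorem t_clo (hweak : S_weak) : S_clo := by
  intro G H _ _ _ _ _ _ U hU n e δ
  rw [isClosed_iff_ultrafilter]
  intro a 𝒰 h𝒰 hS
  obtain ⟨ψ, hψ1, hψ2⟩ := exists_psi (U := U) (n := n) (e := e) (δ := δ)
  have hC : ∀ b, ‖ψ b‖ ≤ ‖e‖ + 1 / 8 := fun b => norm_le_of_ball (hψ1 b)
  obtain ⟨v, hv1, hv2⟩ := hweak H (Fin n → G) 𝒰 ψ (‖e‖ + 1 / 8) hC
  refine ⟨v, hv2 e (1 / 8) (Eventually.of_forall hψ1), fun i => ?_⟩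
  have hf : ∀ b : Fin n → G, ‖U (b i) (ψ b) - ψ b‖ ≤ 2 * (‖e‖ + 1 / 8) := by
    intro b
    have h1 := norm_sub_le (U (b i) (ψ b)) (ψ b)
    rw [hU.iso] at h1
    have h2 := hC b
    linarith
  obtain ⟨v', hv1', hv2'⟩ := hweak H (Fin n → G) 𝒰 (fun b => U (b i) (ψ b) - ψ b)
    (2 * (‖e‖ + 1 / 8)) hf
  have hev : ∀ᶠ b in (𝒰 : Filter (Fin n → G)), ‖(U (b i) (ψ b) - ψ b) - 0‖ ≤ δ := by
    filter_upwards [hS] with b hb
    rw [sub_zero]
    exact hψ2 b hb i
  have hb := hv2' 0 δ hev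
  rw [sub_zero] at hb
  have key : v' = U (a i) v - v := by
    refine ext_inner_right ℝ fun w => ?_
    refine tendsto_nhds_unique (hv1' w) ?_
    have e1 : inner ℝ (U (a i) v - v) w = inner ℝ v (U (a i)⁻¹ w) + 0 - inner ℝ v w := by
      rw [inner_sub_left, inner_adj hU.iso, add_zero]
    rw [e1]
    have hcont : Tendsto (fun b : Fin n → G => U (b i)⁻¹ w) (𝒰 : Filter (Fin n → G))
        (𝓝 (U (a i)⁻¹ w)) := by
      have hc : Continuous fun b : Fin n → G => U (b i)⁻¹ w :=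
        (hU.cont w).comp ((continuous_apply i).inv)
      exact (hc.tendsto a).mono_left h𝒰
    have hz : Tendsto (fun b : Fin n → G => inner ℝ (ψ b) (U (b i)⁻¹ w - U (a i)⁻¹ w))
        (𝒰 : Filter (Fin n → G)) (𝓝 0) := by
      have h0 : Tendsto (fun b : Fin n → G => (‖e‖ + 1 / 8) * ‖U (b i)⁻¹ w - U (a i)⁻¹ w‖)
          (𝒰 : Filter (Fin n → G)) (𝓝 0) := by
        have h1 : Tendsto (fun b : Fin n → G => ‖U (b i)⁻¹ w - U (a i)⁻¹ w‖)
            (𝒰 : Filter (Fin n → G)) (𝓝 0) := by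
          have := (hcont.sub (tendsto_const_nhds (x := U (a i)⁻¹ w))).norm
          rwa [sub_self, norm_zero] at this
        have h2 := h1.const_mul (‖e‖ + 1 / 8)
        rwa [mul_zero] at h2
      refine squeeze_zero_norm (fun b => ?_) h0
      rw [Real.norm_eq_abs]
      exact (abs_real_inner_le_norm _ _).trans
        (mul_le_mul_of_nonneg_right (hC b) (norm_nonneg _))
    have hsum := ((hv1 (U (a i)⁻¹ w)).add hz).sub (hv1 w)
    refine hsum.congr fun b => ?_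
    rw [inner_sub_left, inner_adj hU.iso, inner_sub_right]
    ring
  rw [← key]
  exact hb

theorem t_cpt (hclo : S_clo) : S_cpt := by
  intro G H _ _ _ _ _ _ U hU hM n e he
  have hm := hM e e
  have hs : {g : G | inner ℝ (U g e) e < 1 / 2} ∈ cocompact G :=
    hm.eventually (gt_mem_nhds (by norm_num))
  obtain ⟨C, hC, hCs⟩ := mem_cocompact.mp hs
  refine (isCompact_univ_pi fun _ : Fin n => hC).of_isClosed_subset (hclo G H U hU n e (1 / 8)) ?_
  rintro a ⟨ψ, h1, h2⟩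
  rw [Set.mem_univ_pi]
  intro i
  by_contra hcon
  have h3 : inner ℝ (U (a i) e) e < 1 / 2 := hCs hcon
  have h4 : ‖U (a i) e - e‖ ≤ 3 / 8 := by
    have e1 : U (a i) e - e = -(U (a i) (ψ - e)) + (U (a i) ψ - ψ) + (ψ - e) := by
      rw [map_sub]; abel
    rw [e1]
    have e2 := norm_add_le (-(U (a i) (ψ - e)) + (U (a i) ψ - ψ)) (ψ - e)
    have e3 := norm_add_le (-(U (a i) (ψ - e))) (U (a i) ψ - ψ)
    rw [norm_neg, hU.iso] at e3
    have e4 := h2 i
    linarith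
  have h5 := norm_sub_sq_real (U (a i) e) e
  rw [hU.iso, he] at h5
  have h6 : ‖U (a i) e - e‖ ^ 2 ≤ (3 / 8) ^ 2 := pow_le_pow_left₀ (norm_nonneg _) h4 2
  linarith

theorem t_int (hweak : S_weak) : S_int := by
  intro G H _ _ _ _ _ _ U hU n e he a ha
  choose ψ h1 h2 using ha
  have hC : ∀ k, ‖ψ k‖ ≤ ‖e‖ + 1 / 8 := fun k => norm_le_of_ball (h1 k)
  obtain ⟨v, hv1, hv2⟩ := hweak H ℕ (hyperfilter ℕ) ψ (‖e‖ + 1 / 8) hC
  have hb := hv2 e (1 / 8) (Eventually.of_forall h1)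
  refine ⟨v, ?_, fun i => ?_⟩
  · rintro rfl
    rw [zero_sub, norm_neg, he] at hb
    norm_num at hb
  · rw [← sub_eq_zero]
    refine ext_inner_right ℝ fun w => ?_
    rw [inner_zero_left]
    have hlim : Tendsto (fun k => inner ℝ (U (a i) (ψ k) - ψ k) w)
        (hyperfilter ℕ : Filter ℕ) (𝓝 (inner ℝ (U (a i) v - v) w)) := by
      have hsum := (hv1 (U (a i)⁻¹ w)).sub (hv1 w)
      rw [inner_sub_left, inner_adj hU.iso]
      refine hsum.congr fun b => ?_
      rw [inner_sub_left, inner_adj hU.iso]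
    have hz : Tendsto (fun k => inner ℝ (U (a i) (ψ k) - ψ k) w)
        (hyperfilter ℕ : Filter ℕ) (𝓝 0) := by
      have h0 : Tendsto (fun k : ℕ => 1 / ((k : ℝ) + 1) * ‖w‖) (hyperfilter ℕ : Filter ℕ)
          (𝓝 0) := by
        have h3 : Tendsto (fun k : ℕ => 1 / ((k : ℝ) + 1) * ‖w‖) atTop (𝓝 0) := by
          have := (tendsto_one_div_add_atTop_nhds_zero_nat (𝕜 := ℝ)).mul_const ‖w‖
          rwa [zero_mul] at this
        refine h3.mono_left ?_
        rw [← Nat.cofinite_eq_atTop]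
        exact hyperfilter_le_cofinite
      refine squeeze_zero_norm (fun k => ?_) h0
      rw [Real.norm_eq_abs]
      exact (abs_real_inner_le_norm _ _).trans
        (mul_le_mul_of_nonneg_right (h2 k i) (norm_nonneg _))
    exact tendsto_nhds_unique hlim hz

theorem t_small (hclo : S_clo) (hcpt : S_cpt) (hint : S_int) : S_small := by
  intro G H _ _ _ _ _ _ _ _ μ _ _ _ _ U hU hM n hn hae e he ε hε
  let s : ℕ → Set (Fin n → G) := fun k => SS U n e (1 / ((k : ℝ) + 1))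
  have hanti : Antitone s := by
    intro k l hkl a ha
    obtain ⟨ψ, h1, h2⟩ := ha
    refine ⟨ψ, h1, fun i => (h2 i).trans ?_⟩
    have h3 : (k : ℝ) + 1 ≤ (l : ℝ) + 1 := by
      have : (k : ℝ) ≤ l := by exact_mod_cast hkl
      linarith
    exact one_div_le_one_div_of_le (by positivity) h3
  have hmeas : ∀ k, NullMeasurableSet (s k) (Measure.pi fun _ : Fin n => μ) := fun k =>
    (hclo G H U hU n e _).measurableSet.nullMeasurableSet
  have hfin : ∃ k, Measure.pi (fun _ : Fin n => μ) (s k) ≠ ∞ := by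
    refine ⟨7, ?_⟩
    have h1 : s 7 = SS U n e (1 / 8) := by
      have : (1 : ℝ) / (((7 : ℕ) : ℝ) + 1) = 1 / 8 := by norm_num
      simp only [s, this]
    rw [h1]
    exact (hcpt G H U hU hM n e he).measure_lt_top.ne
  have ht := tendsto_measure_iInter_atTop hmeas hanti hfin
  have h0 : Measure.pi (fun _ : Fin n => μ) (⋂ k, s k) = 0 := by
    refine measure_mono_null ?_ hae
    intro a ha
    rw [Set.mem_iInter] at ha
    obtain ⟨v, hv, hv'⟩ := hint G H U hU n e he a ha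
    exact fun hcon => hv (hcon v hv')
  rw [h0] at ht
  obtain ⟨k, hk⟩ := (ht.eventually (gt_mem_nhds hε)).exists
  exact ⟨1 / ((k : ℝ) + 1), by positivity, hk.le⟩

end Pool.Agent.H200.IE
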